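import Mathlib
import Pool.Agent.H16.IntersProof

set_option autoImplicit false

namespace Pool.Agent.Results.MP_7e65d6_nt.ThickSeparates

open Pool.Agent.H16.Inters

theorem result :
    ∀ E : Set ℕ, E.Infinite → 0 ∉ E → upperBanach E = 0 →
      ∃ R : Set ℕ, 0 ∉ R ∧ Intersective {n | 1 ≤ n} R ∧ ¬ Intersective E R :=
  fun E hE _ h => not_rel_intersective E hE h

end Pool.Agent.Results.MP_7e65d6_nt.ThickSeparates
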